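import Pool.Agent.Y722.HS.Sec2
import Pool.Agent.Y722.HS.LSum

/-!
# Elliptic and hyperelliptic surfaces over the projective line with prescribed sections

For a coefficient vector `c` the surface `X_c` is the hyperelliptic fibration of genus `g`
`y² + h(x, t) y = (x - b_1(t)) ⋯ (x - b_m(t)) q(x, t)`
over the `t`-line, where `q` is monic in `x` of degree `2 g + 1 - m`, the polynomials `b_i(t)` are fixed,
`h` and `q` are arbitrary, and the variable `x` has the weight `2 n`.
-/

set_option autoImplicit false

namespace Pool.Agent.K7.H53.EL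

open Finset Pool.Agent.Y722.HS

/-- The value at a point `τ` of the projective line of the form of degree `D` with the coefficients
`v`: for `τ = some t` this is `∑ v a t ^ a`, and at infinity (`τ = none`) it is the coefficient
`v D`. -/
def ev {R : Type} [CommRing R] {D : ℕ} (v : Fin (D + 1) → R) : Option R → R
  | some t => ∑ a, v a * t ^ (a : ℕ)
  | none => v (Fin.last D)

/-- The indices of the coefficients.  On the left the coefficients of `x^j t^a` in `h`, `j ≤ g` and
`a ≤ n (2 g + 1 - 2 j)`, on the right those of `x^j t^a` in `q`, `j ≤ 2 g - m` and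
`a ≤ 2 n (2 g + 1 - m - j)`; the coefficient of `x^(2 g + 1 - m)` in `q` is `1`. -/
abbrev Idx (g n m : ℕ) : Type :=
  (Σ j : Fin (g + 1), Fin (n * (2 * g + 1 - 2 * j) + 1)) ⊕
    (Σ j : Fin (2 * g + 1 - m), Fin (2 * n * (2 * g + 1 - m - j) + 1))

section
variable {R : Type} [CommRing R] {g n m : ℕ}

/-- The value of `h` at `(x, τ)`. -/
def hv (c : Idx g n m → R) (τ : Option R) (x : R) : R :=
  ∑ j : Fin (g + 1), ev (fun a => c (Sum.inl ⟨j, a⟩)) τ * x ^ (j : ℕ)

/-- The value of `q` at `(x, τ)`. -/
def qv (c : Idx g n m → R) (τ : Option R) (x : R) : R :=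
  x ^ (2 * g + 1 - m) +
    ∑ j : Fin (2 * g + 1 - m), ev (fun a => c (Sum.inr ⟨j, a⟩)) τ * x ^ (j : ℕ)

/-- The value of `(x - b_1) ⋯ (x - b_m)` at `(x, τ)`; `b i a` is the coefficient of `t^a` in `b_i`,
`a ≤ 2 n`. -/
def Bv (b : Fin m → Fin (2 * n + 1) → ℤ) (τ : Option R) (x : R) : R :=
  ∏ i, (x - ev (fun a => (b i a : R)) τ)

/-- The equation of the fibre at `τ`. -/
def OnX (b : Fin m → Fin (2 * n + 1) → ℤ) (c : Idx g n m → R) (τ : Option R) (x y : R) : Prop :=
  y ^ 2 + hv c τ x * y = Bv b τ x * qv c τ x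

end

/-- The number of the points of `X_c` over the field with `p` elements: the points of the affine
parts of the `p + 1` fibres, and the `p + 1` points of the section at infinity. -/
noncomputable def points {g n m : ℕ} (b : Fin m → Fin (2 * n + 1) → ℤ) (p : ℕ)
    (c : Idx g n m → ZMod p) : ℕ :=
  Nat.card {q : Option (ZMod p) × ZMod p × ZMod p // OnX b c q.1 q.2.1 q.2.2} + (p + 1)

/-- `γ p j`, `j < b₂`, are the eigenvalues of the geometric Frobenius at `p` on the inertia invariants
of `H²` of the surface `X_c`, zeros added if necessary: for all primes `p` one has `|γ p j| ≤ p`, and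
if `p` does not divide the value at `c` of the polynomial `P` (a multiple of the discriminant of the
family, so that `X_c` has good reduction at such a `p`), then `p² + 1 + ∑ γ p j` is the number of the
points of `X_c` over the field with `p` elements (the surface has `b₁ = b₃ = 0`). -/
structure IsFrobenius {g n m : ℕ} (b : Fin m → Fin (2 * n + 1) → ℤ)
    (P : MvPolynomial (Idx g n m) ℤ) (b₂ : ℕ) (c : Idx g n m → ℤ) (γ : ℕ → Fin b₂ → ℂ) : Prop where
  bound : ∀ p : ℕ, p.Prime → ∀ j, ‖γ p j‖ ≤ p
  count : ∀ p : ℕ, p.Prime → ¬ (p : ℤ) ∣ MvPolynomial.eval c P →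
    ∑ j, γ p j = (points b p (red p c) : ℂ) - (p : ℂ) ^ 2 - 1

end Pool.Agent.K7.H53.EL
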