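import Pool.Agent.Y722.PC.Products

/-!
# From moments modulo primes to the L-functions of surfaces near `s = 2`
-/

set_option autoImplicit false

namespace Pool.Agent.K7.H53.EL

open Finset Pool.Agent.Y722.HS Pool.Agent.Y722.LS Pool.Agent.Y722.PC

variable {ι : Type} [Fintype ι] [DecidableEq ι]

/-- The normalised deviation. -/
noncomputable def NT (p0 : ℕ) (T : ∀ p : ℕ, (ι → ZMod p) → ℝ) (p : ℕ) (c : ι → ZMod p) : ℝ :=
  if p < p0 then 0 else T p c / (p : ℝ) ^ 2

open Classical in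
/-- The indicator of bad reduction. -/
noncomputable def BT (p0 : ℕ) (P : MvPolynomial ι ℤ) (p : ℕ) (c : ι → ZMod p) : ℝ :=
  if p < p0 ∨ MvPolynomial.eval₂ (Int.castRingHom (ZMod p)) c P = 0 then 1 else 0

theorem famT (p0 : ℕ) (T : ∀ p : ℕ, (ι → ZMod p) → ℝ) (A : ℝ) (hA : 0 ≤ A)
    (hm : ∀ (p : ℕ) [Fact p.Prime], p0 ≤ p → |EM p (T p)| ≤ A)
    (hs : ∀ (p : ℕ) [Fact p.Prime], p0 ≤ p → EM p (fun c => T p c ^ 2) ≤ A * (p : ℝ) ^ 2)
    (P : MvPolynomial ι ℤ) (c0 : ι → ℤ) (hP : MvPolynomial.eval c0 P ≠ 0) :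
    Fam (1 + p0 + (P.totalDegree + |(MvPolynomial.eval c0 P : ℝ)|) + A) (NT p0 T) (BT p0 P) := by
  classical
  have t1 : (0 : ℝ) ≤ p0 := by positivity
  have t2 : (0 : ℝ) ≤ P.totalDegree + |(MvPolynomial.eval c0 P : ℝ)| := by positivity
  set M : ℝ := 1 + p0 + (P.totalDegree + |(MvPolynomial.eval c0 P : ℝ)|) + A with hM
  have hM0 : 0 ≤ M := by linarith
  refine ⟨by linarith, ?_, ?_, ?_, ?_, ?_⟩
  · intro p hpF
    have hp0 : (0 : ℝ) < p := by exact_mod_cast hpF.out.pos
    by_cases hlt : p < p0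
    · have h1 : (fun c : ι → ZMod p => NT p0 T p c ^ 2) = fun _ => 0 := by
        funext c; simp [NT, hlt]
      rw [h1, EM_const]
      positivity
    · have h1 : (fun c : ι → ZMod p => NT p0 T p c ^ 2) =
          fun c => (1 / (p : ℝ) ^ 4) * (T p c ^ 2) := by
        funext c
        rw [NT, if_neg hlt]
        field_simp
      rw [h1, EM_mul]
      have h2 := hs p (by omega)
      calc _ ≤ 1 / (p : ℝ) ^ 4 * (A * (p : ℝ) ^ 2) := by gcongr
        _ = A / (p : ℝ) ^ 2 := by field_simp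
        _ ≤ _ := by
            gcongr
            linarith
  · intro p hpF
    have hp0 : (0 : ℝ) < p := by exact_mod_cast hpF.out.pos
    by_cases hlt : p < p0
    · have h1 : (fun c : ι → ZMod p => NT p0 T p c) = fun _ => 0 := by
        funext c; simp [NT, hlt]
      rw [h1, EM_const, abs_zero]
      positivity
    · have h1 : (fun c : ι → ZMod p => NT p0 T p c) =
          fun c => (1 / (p : ℝ) ^ 2) * T p c := by
        funext c
        rw [NT, if_neg hlt]
        ring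
      rw [h1, EM_mul, abs_mul, abs_of_pos (by positivity : (0 : ℝ) < 1 / (p : ℝ) ^ 2)]
      have h2 := hm p (by omega)
      calc _ ≤ 1 / (p : ℝ) ^ 2 * A := by gcongr
        _ = A / (p : ℝ) ^ 2 := by ring
        _ ≤ _ := by
            gcongr
            linarith
  · intro p c
    unfold BT
    split_ifs <;> norm_num
  · intro p c
    unfold BT
    split_ifs <;> norm_num
  · intro p hpF
    have hp0 : (0 : ℝ) < p := by exact_mod_cast hpF.out.pos
    by_cases hlt : p < p0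
    · have hle1 : EM p (fun c : ι → ZMod p => BT p0 P p c) ≤ 1 := by
        rw [← EM_const (ι := ι) p 1]
        apply EM_mono
        intro c
        unfold BT
        split_ifs <;> norm_num
      refine hle1.trans ?_
      rw [le_div_iff₀ hp0, one_mul]
      have : (p : ℝ) ≤ p0 := by exact_mod_cast hlt.le
      linarith
    · have h1 : (fun c : ι → ZMod p => BT p0 P p c) = fun c => BZ P p c := by
        funext c
        unfold BT BZ
        simp only [hlt, false_or]
      rw [h1]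
      refine (EM_BZ P c0 hP p).trans ?_
      gcongr
      linarith

/-- **Surfaces.**  `T p` is the deviation of the trace of the Frobenius at `p` on `H²` from `r p`. -/
theorem surf (p0 : ℕ) (T : ∀ p : ℕ, (ι → ZMod p) → ℝ) (A : ℝ) (hA : 0 ≤ A)
    (hm : ∀ (p : ℕ) [Fact p.Prime], p0 ≤ p → |EM p (T p)| ≤ A)
    (hs : ∀ (p : ℕ) [Fact p.Prime], p0 ≤ p → EM p (fun c => T p c ^ 2) ≤ A * (p : ℝ) ^ 2)
    (P : MvPolynomial ι ℤ) (c0 : ι → ℤ) (hP : MvPolynomial.eval c0 P ≠ 0) (r : ℝ) (hr : 0 ≤ r)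
    (b : ℕ) : ∃ C : ℝ, ∀ H : ℕ, 2 ≤ H → ∀ S ⊆ box ι H,
      ∀ (γ : (ι → ℤ) → ℕ → Fin b → ℂ) (ε : (ι → ℤ) → ℝ),
      (∀ c ∈ S, (∀ p : ℕ, p.Prime → ∀ j, ‖γ c p j‖ ≤ (p : ℝ)) ∧
        ∀ (p : ℕ) [Fact p.Prime], p0 ≤ p → ¬ (p : ℤ) ∣ MvPolynomial.eval c P →
          ∑ j, γ c p j = ((r * p + T p (red p c) : ℝ) : ℂ)) →
      (∀ c ∈ S, 1 / Real.log H ≤ ε c ∧ ε c ≤ 1) →
      ∑ c ∈ S, (Real.log ‖LP (γ c) (2 + ε c)‖ - r * Real.log (1 / ε c)) ^ 2 ≤
        C * (box ι H).card := by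
  classical
  obtain ⟨Cp, hCp0, hCp⟩ := prime_near
  have hfam := famT p0 T A hA hm hs P c0 hP
  set ρ : ℕ → ℝ := fun p => r / p with hρ
  have hmain := assemble (ρ := ρ) (K := r) hfam (by
    intro p hp c
    unfold BT
    split_ifs
    · exact Or.inr rfl
    · exact Or.inl rfl) hr (by
    intro p hp
    have hp0 : (0 : ℝ) < p := by exact_mod_cast hp.pos
    exact ⟨by positivity, le_rfl⟩) r (r * Cp) (by
    intro ε hε hε1 y hy hyε
    have h1 := hCp ε hε hε1 y hy hyε
    have h2 : ∑ p ∈ PR y, ρ p * (p : ℝ) ^ (-ε) = r * ∑ p ∈ PR y, (p : ℝ) ^ (-1 - ε) := by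
      rw [Finset.mul_sum]
      refine Finset.sum_congr rfl fun p hp => ?_
      have hp0 : (0 : ℝ) < p := by exact_mod_cast (mem_PR.mp hp).2.pos
      rw [hρ, show (-1 - ε : ℝ) = -1 + -ε by ring, Real.rpow_add hp0, Real.rpow_neg_one]
      ring
    rw [h2, ← mul_sub, abs_mul, abs_of_nonneg hr]
    gcongr) 3 b
  obtain ⟨C, hC⟩ := hmain
  refine ⟨C, fun H hH S hS γ ε hγ hε => ?_⟩
  have h1 := hC H hH S hS γ ε (by
    intro c hc
    refine ⟨?_, ?_⟩
    · intro p hp j
      have e : (((3 : ℕ) : ℝ) - 1) / 2 = 1 := by norm_num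
      rw [e, Real.rpow_one]
      exact (hγ c hc).1 p hp j
    · intro p hp hB
      have := Fact.mk hp
      have hp0 : (0 : ℝ) < p := by exact_mod_cast hp.pos
      have hgood : ¬ (p < p0 ∨ MvPolynomial.eval₂ (Int.castRingHom (ZMod p)) (red p c) P = 0) := by
        intro h
        unfold BT at hB
        rw [if_pos h] at hB
        exact one_ne_zero hB
      push Not at hgood
      obtain ⟨hg1, hg2⟩ := hgood
      have hnd : ¬ (p : ℤ) ∣ MvPolynomial.eval c P := by
        intro hdvd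
        apply hg2
        have h2 : MvPolynomial.eval₂ (Int.castRingHom (ZMod p)) (red p c) P =
            (Int.castRingHom (ZMod p)) (MvPolynomial.eval c P) := by
          rw [MvPolynomial.eval, MvPolynomial.coe_eval₂Hom, MvPolynomial.eval₂_comp_left]
          rfl
        rw [h2]
        exact (ZMod.intCast_zmod_eq_zero_iff_dvd _ _).2 hdvd
      rw [(hγ c hc).2 p (by omega) hnd]
      congr 1
      have e2 : (((3 : ℕ) : ℝ) + 1) / 2 = ((2 : ℕ) : ℝ) := by norm_num
      rw [e2, Real.rpow_natCast, NT, if_neg (by omega), hρ]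
      field_simp
      ring) hε
  have h2 : ∀ t : ℝ, ss 3 t = (2 : ℂ) + t := by
    intro t
    unfold ss
    push_cast
    ring
  simp only [h2] at h1
  exact h1

end Pool.Agent.K7.H53.EL
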