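import Pool.Agent.K7.H53.EL.Mom
import Pool.Agent.K7.H53.EL.Surf

/-!
# Elliptic and hyperelliptic surfaces with prescribed sections: `L₂(s)` near `s = 2`
-/

set_option autoImplicit false

namespace Pool.Agent.K7.H53.EL

open Finset Pool.Agent.Y722.HS Pool.Agent.X280.BP

section
variable {p : ℕ} [hp : Fact p.Prime] {g n m : ℕ}

theorem card_quad (h5 : 5 ≤ p) (h f : ZMod p) :
    (Fintype.card {y : ZMod p // y ^ 2 + h * y = f} : ℝ) = 1 + ch (h ^ 2 + 4 * f) := by
  obtain ⟨h2, h3, hk⟩ := char_ne (six_ne (p := p) h5)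
  have e : {y : ZMod p // y ^ 2 + h * y = f} ≃ {z : ZMod p // z ^ 2 = h ^ 2 + 4 * f} :=
    { toFun := fun y => ⟨2 * y.1 + h, by linear_combination 4 * y.2⟩
      invFun := fun z => ⟨(z.1 - h) / 2, by
        have := z.2
        field_simp
        linear_combination this⟩
      left_inv := fun y => by
        apply Subtype.ext
        simp only
        field_simp
        ring
      right_inv := fun z => by
        apply Subtype.ext
        simp only
        field_simp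
        ring }
  have h1 : (Fintype.card {z : ZMod p // z ^ 2 = h ^ 2 + 4 * f} : ℤ) =
      quadraticChar (ZMod p) (h ^ 2 + 4 * f) + 1 := by
    rw [← quadraticChar_card_sqrts hk, Set.toFinset_card]
    congr 1
  rw [Fintype.card_congr e]
  unfold ch
  have h4 : (Fintype.card {z : ZMod p // z ^ 2 = h ^ 2 + 4 * f} : ℝ) =
      ((quadraticChar (ZMod p) (h ^ 2 + 4 * f) + 1 : ℤ) : ℝ) := by exact_mod_cast h1
  rw [h4]
  push_cast
  ring

theorem points_eq (h5 : 5 ≤ p) (b : Fin m → Fin (2 * n + 1) → ℤ) (c : Idx g n m → ZMod p) :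
    (points b p c : ℝ) - (p : ℝ) ^ 2 - 1 = (2 + m) * p + TT b p c := by
  classical
  have h1 : Nat.card {q : Option (ZMod p) × ZMod p × ZMod p // OnX b c q.1 q.2.1 q.2.2} =
      ∑ y : Option (ZMod p) × ZMod p, Fintype.card {z : ZMod p //
        z ^ 2 + hv c y.1 y.2 * z = Bv b y.1 y.2 * qv c y.1 y.2} := by
    have e : {q : Option (ZMod p) × ZMod p × ZMod p // OnX b c q.1 q.2.1 q.2.2} ≃
        (y : Option (ZMod p) × ZMod p) × {z : ZMod p //
          z ^ 2 + hv c y.1 y.2 * z = Bv b y.1 y.2 * qv c y.1 y.2} :=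
      { toFun := fun q => ⟨(q.1.1, q.1.2.1), ⟨q.1.2.2, q.2⟩⟩
        invFun := fun q => ⟨(q.1.1, q.1.2, q.2.1), q.2.2⟩
        left_inv := fun q => rfl
        right_inv := fun q => rfl }
    rw [Nat.card_congr e, Nat.card_eq_fintype_card, Fintype.card_sigma]
  unfold points TT
  rw [h1]
  push_cast
  have h2 : ∀ y : Option (ZMod p) × ZMod p, (Fintype.card {z : ZMod p //
      z ^ 2 + hv c y.1 y.2 * z = Bv b y.1 y.2 * qv c y.1 y.2} : ℝ) = 1 + ch (dis b y c) :=
    fun y => card_quad h5 _ _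
  rw [Finset.sum_congr rfl fun y _ => h2 y, Finset.sum_add_distrib, Finset.sum_const,
    Finset.card_univ, Fintype.card_prod, nsmul_eq_mul]
  push_cast
  rw [card_P1, ZMod.card]
  ring

end

section
variable {g n m : ℕ}

open Classical in
/-- The deviation for all `p`. -/
noncomputable def Tf (b : Fin m → Fin (2 * n + 1) → ℤ) (p : ℕ) (c : Idx g n m → ZMod p) : ℝ :=
  if h : p.Prime then (haveI : Fact p.Prime := ⟨h⟩; TT b p c) else 0

theorem Tf_eq (b : Fin m → Fin (2 * n + 1) → ℤ) (p : ℕ) [hp : Fact p.Prime] :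
    Tf (g := g) b p = TT b p := by
  funext c
  unfold Tf
  rw [dif_pos hp.out]

/-- The bound for the small primes. -/
def pp0 (b : Fin m → Fin (2 * n + 1) → ℤ) : ℕ :=
  5 + ∑ i, ∑ j, ∑ a, (b i a - b j a).natAbs

theorem sep (b : Fin m → Fin (2 * n + 1) → ℤ) (hb : Function.Injective b) (p : ℕ)
    (h : pp0 b ≤ p) (i j : Fin m) (hij : i ≠ j) :
    (fun a => (b i a : ZMod p)) ≠ fun a => (b j a : ZMod p) := by
  intro he
  have hne : b i ≠ b j := fun h => hij (hb h)
  obtain ⟨a, ha⟩ := Function.ne_iff.1 hne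
  have h1 := congrFun he a
  have h2 : ((b i a - b j a : ℤ) : ZMod p) = 0 := by
    push_cast
    rw [sub_eq_zero]
    exact h1
  have h3 := (ZMod.intCast_zmod_eq_zero_iff_dvd _ _).1 h2
  have h4 : b i a - b j a ≠ 0 := sub_ne_zero.2 ha
  have h5 : p ≤ (b i a - b j a).natAbs := by
    have := Int.natAbs_dvd_natAbs.2 h3
    rw [Int.natAbs_natCast] at this
    exact Nat.le_of_dvd (Int.natAbs_pos.2 h4) this
  have h6 : (b i a - b j a).natAbs ≤ ∑ i, ∑ j, ∑ a, (b i a - b j a).natAbs := by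
    calc _ ≤ ∑ a, (b i a - b j a).natAbs :=
          Finset.single_le_sum (f := fun a => (b i a - b j a).natAbs)
            (fun _ _ => Nat.zero_le _) (Finset.mem_univ a)
      _ ≤ ∑ j, ∑ a, (b i a - b j a).natAbs :=
          Finset.single_le_sum (f := fun j => ∑ a, (b i a - b j a).natAbs)
            (fun _ _ => Nat.zero_le _) (Finset.mem_univ j)
      _ ≤ _ := Finset.single_le_sum (f := fun i => ∑ j, ∑ a, (b i a - b j a).natAbs)
            (fun _ _ => Nat.zero_le _) (Finset.mem_univ i)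
  unfold pp0 at h
  omega

/-- **Hyperelliptic surfaces with prescribed sections.** -/
theorem main (hg : 1 ≤ g) (hn : 1 ≤ n) (hm : m ≤ 2 * g) (b : Fin m → Fin (2 * n + 1) → ℤ)
    (hb : Function.Injective b) (P : MvPolynomial (Idx g n m) ℤ) (hP : P ≠ 0) (b₂ : ℕ) :
    ∃ C : ℝ, ∀ H : ℕ, 2 ≤ H → ∀ S ⊆ box (Idx g n m) H,
      ∀ (γ : (Idx g n m → ℤ) → ℕ → Fin b₂ → ℂ) (ε : (Idx g n m → ℤ) → ℝ),
      (∀ c ∈ S, IsFrobenius b P b₂ c (γ c)) →
      (∀ c ∈ S, 1 / Real.log H ≤ ε c ∧ ε c ≤ 1) →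
      ∑ c ∈ S, (Real.log ‖LP (γ c) (2 + ε c)‖ - (2 + m) * Real.log (1 / ε c)) ^ 2 ≤
        C * (box (Idx g n m) H).card := by
  obtain ⟨c0, hc0⟩ : ∃ c0, MvPolynomial.eval c0 P ≠ 0 := by
    by_contra hcon
    push Not at hcon
    exact hP (MvPolynomial.funext fun c => by rw [hcon c, map_zero])
  set A : ℝ := (3 * m + (m : ℝ) ^ 2 * (2 * n + 1)) + (10 * (m : ℝ) ^ 2 + 12) with hA
  have hA0 : 0 ≤ A := by positivity
  obtain ⟨C, hC⟩ := surf (pp0 b) (Tf (g := g) b) A hA0 (fun p _ hp => by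
    rw [Tf_eq]
    have h5 : 5 ≤ p := by unfold pp0 at hp; omega
    refine (mean_TT h5 hg hm b (sep b hb p hp)).trans ?_
    rw [hA]
    have : (0 : ℝ) ≤ 10 * (m : ℝ) ^ 2 + 12 := by positivity
    linarith) (fun p _ hp => by
    rw [Tf_eq]
    have h5 : 5 ≤ p := by unfold pp0 at hp; omega
    refine (sq_TT h5 hg hn hm b (sep b hb p hp)).trans ?_
    have : (0 : ℝ) ≤ 3 * m + (m : ℝ) ^ 2 * (2 * n + 1) := by positivity
    gcongr
    linarith) P c0 hc0 (2 + m) (by positivity) b₂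
  refine ⟨C, fun H hH S hS γ ε hγ hε => hC H hH S hS γ ε (fun c hc => ⟨(hγ c hc).bound, ?_⟩) hε⟩
  intro p hpF hp hnd
  have h5 : 5 ≤ p := by unfold pp0 at hp; omega
  rw [(hγ c hc).count p hpF.out hnd, Tf_eq, ← points_eq h5 b (red p c)]
  push_cast
  ring

end

end Pool.Agent.K7.H53.EL
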