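import Pool.Agent.K7.H53.EL.Defs
import Pool.Agent.X280.BP.Conic

/-!
# Elliptic and hyperelliptic surfaces with prescribed sections: moments modulo a prime
-/

set_option autoImplicit false
set_option linter.unusedSectionVars false

namespace Pool.Agent.K7.H53.EL

open Finset Pool.Agent.Y722.HS Pool.Agent.X280.BP

section lin
variable {R : Type} [CommRing R] {g n m : ℕ}

theorem ev_add {D : ℕ} (v w : Fin (D + 1) → R) (s : R) (τ : Option R) :
    ev (fun a => v a + s * w a) τ = ev v τ + s * ev w τ := by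
  cases τ with
  | none => rfl
  | some t =>
    simp only [ev]
    rw [Finset.mul_sum, ← Finset.sum_add_distrib]
    exact Finset.sum_congr rfl fun a _ => by ring

/-- The linear part of `qv`. -/
def ql (c : Idx g n m → R) (τ : Option R) (x : R) : R :=
  ∑ j : Fin (2 * g + 1 - m), ev (fun a => c (Sum.inr ⟨j, a⟩)) τ * x ^ (j : ℕ)

theorem hv_add (c d : Idx g n m → R) (s : R) (τ : Option R) (x : R) :
    hv (c + s • d) τ x = hv c τ x + s * hv d τ x := by
  unfold hv
  rw [Finset.mul_sum, ← Finset.sum_add_distrib]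
  refine Finset.sum_congr rfl fun j _ => ?_
  have := ev_add (fun a => c (Sum.inl ⟨j, a⟩)) (fun a => d (Sum.inl ⟨j, a⟩)) s τ
  simp only [Pi.add_apply, Pi.smul_apply, smul_eq_mul]
  rw [this]
  ring

theorem qv_add (c d : Idx g n m → R) (s : R) (τ : Option R) (x : R) :
    qv (c + s • d) τ x = qv c τ x + s * ql d τ x := by
  unfold qv ql
  rw [Finset.mul_sum, add_assoc, ← Finset.sum_add_distrib]
  congr 1
  refine Finset.sum_congr rfl fun j _ => ?_
  have := ev_add (fun a => c (Sum.inr ⟨j, a⟩)) (fun a => d (Sum.inr ⟨j, a⟩)) s τ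
  simp only [Pi.add_apply, Pi.smul_apply, smul_eq_mul]
  rw [this]
  ring

/-- A form of degree `D` which is `u t^D + w t + z`. -/
def tri (D : ℕ) (u w z : R) (a : ℕ) : R :=
  (if a = D then u else 0) + (if a = 1 then w else 0) + (if a = 0 then z else 0)

theorem ev_tri_some {D : ℕ} (hD : 1 ≤ D) (u w z t : R) :
    ev (fun a : Fin (D + 1) => tri D u w z a) (some t) = u * t ^ D + w * t + z := by
  have key : ∀ k : ℕ, k ≤ D → ∀ u : R,
      ∑ a : Fin (D + 1), (if (a : ℕ) = k then u else 0) * t ^ (a : ℕ) = u * t ^ k := by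
    intro k hk u
    rw [Finset.sum_eq_single (⟨k, by omega⟩ : Fin (D + 1))]
    · simp
    · intro a _ ha
      rw [if_neg (fun h => ha (Fin.ext h)), zero_mul]
    · simp
  simp only [ev, tri, add_mul, Finset.sum_add_distrib]
  rw [key D le_rfl, key 1 hD, key 0 (by omega)]
  simp

theorem ev_tri_none {D : ℕ} (hD : 1 ≤ D) (u w z : R) :
    ev (fun a : Fin (D + 1) => tri D u w z a) none = u + (if D = 1 then w else 0) := by
  simp only [ev, tri, Fin.val_last, if_true]
  rw [if_neg (show ¬ D = 0 by omega), add_zero]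

end lin

variable {p : ℕ} [hp : Fact p.Prime] {g n m : ℕ}

/-- There is a form of degree `D` with the values `1` and `0` at two points. -/
theorem exists_L {D : ℕ} (hD : 1 ≤ D) {τ τ' : Option (ZMod p)} (h : τ ≠ τ') :
    ∃ L : ℕ → ZMod p, ev (fun a : Fin (D + 1) => L a) τ = 1 ∧
      ev (fun a : Fin (D + 1) => L a) τ' = 0 := by
  rcases τ with _ | t
  · rcases τ' with _ | t'
    · exact absurd rfl h
    · refine ⟨tri D 1 0 (-t' ^ D), ?_, ?_⟩
      · rw [ev_tri_none hD]; simp
      · rw [ev_tri_some hD]; ring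
  · rcases τ' with _ | t'
    · refine ⟨tri D 0 0 1, ?_, ?_⟩
      · rw [ev_tri_some hD]; ring
      · rw [ev_tri_none hD]; simp
    · have hne : t - t' ≠ 0 := by
        intro h0
        exact h (by rw [sub_eq_zero.1 h0])
      refine ⟨tri D 0 (1 / (t - t')) (-t' / (t - t')), ?_, ?_⟩
      · rw [ev_tri_some hD]; field_simp; ring
      · rw [ev_tri_some hD]; field_simp; ring

/-- There is a form of degree `D` with the value `1` at a point. -/
theorem exists_L1 {D : ℕ} (τ : Option (ZMod p)) :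
    ∃ L : ℕ → ZMod p, ev (fun a : Fin (D + 1) => L a) τ = 1 := by
  rcases τ with _ | t
  · exact ⟨fun _ => 1, rfl⟩
  · refine ⟨fun a => if a = 0 then 1 else 0, ?_⟩
    simp only [ev]
    rw [Finset.sum_eq_single (0 : Fin (D + 1))]
    · simp
    · intro a _ ha
      have h3 : (a : ℕ) ≠ 0 := fun h => ha (Fin.ext (by simpa using h))
      rw [if_neg h3, zero_mul]
    · simp

theorem ev_zero {D : ℕ} (τ : Option (ZMod p)) :
    ev (fun _ : Fin (D + 1) => (0 : ZMod p)) τ = 0 := by
  cases τ with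
  | none => rfl
  | some t => simp [ev]

theorem ev_smul {D : ℕ} (s : ZMod p) (L : Fin (D + 1) → ZMod p) (τ : Option (ZMod p)) :
    ev (fun a => s * L a) τ = s * ev L τ := by
  cases τ with
  | none => rfl
  | some t =>
    simp only [ev]
    rw [Finset.mul_sum]
    exact Finset.sum_congr rfl fun a _ => by ring

/-- The direction that moves the coefficient of `x^0` in `q`. -/
def dq (L : ℕ → ZMod p) : Idx g n m → ZMod p
  | Sum.inl _ => 0
  | Sum.inr k => if (k.1 : ℕ) = 0 then L k.2 else 0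

theorem hv_dq (L : ℕ → ZMod p) (τ : Option (ZMod p)) (x : ZMod p) :
    hv (dq (g := g) (n := n) (m := m) L) τ x = 0 := by
  unfold hv
  refine Finset.sum_eq_zero fun j _ => ?_
  have : ev (fun a => dq (g := g) (n := n) (m := m) L (Sum.inl ⟨j, a⟩)) τ = 0 := ev_zero τ
  rw [this, zero_mul]

theorem ql_dq (hm : m ≤ 2 * g) (L : ℕ → ZMod p) (τ : Option (ZMod p)) (x : ZMod p) :
    ql (dq (g := g) (n := n) (m := m) L) τ x =
      ev (fun a : Fin (2 * n * (2 * g + 1 - m) + 1) => L a) τ := by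
  unfold ql
  rw [Finset.sum_eq_single (⟨0, by omega⟩ : Fin (2 * g + 1 - m))]
  · simp only [dq, if_true, pow_zero, mul_one]
    rfl
  · intro j _ hj
    have : ev (fun a => dq (g := g) (n := n) (m := m) L (Sum.inr ⟨j, a⟩)) τ = 0 := by
      have e : (fun a => dq (g := g) (n := n) (m := m) L (Sum.inr ⟨j, a⟩)) = fun _ => 0 := by
        funext a
        simp only [dq]
        rw [if_neg (fun h => hj (Fin.ext h))]
      rw [e, ev_zero]
    rw [this, zero_mul]
  · simp

/-- The direction that moves the coefficients of `x^0` and `x^1` in `h`. -/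
def dh (L0 L1 : ℕ → ZMod p) (α β : ZMod p) : Idx g n m → ZMod p
  | Sum.inl k => if (k.1 : ℕ) = 0 then β * L0 k.2 else if (k.1 : ℕ) = 1 then α * L1 k.2 else 0
  | Sum.inr _ => 0

theorem ql_dh (L0 L1 : ℕ → ZMod p) (α β : ZMod p) (τ : Option (ZMod p)) (x : ZMod p) :
    ql (dh (g := g) (n := n) (m := m) L0 L1 α β) τ x = 0 := by
  unfold ql
  refine Finset.sum_eq_zero fun j _ => ?_
  have : ev (fun a => dh (g := g) (n := n) (m := m) L0 L1 α β (Sum.inr ⟨j, a⟩)) τ = 0 := ev_zero τ
  rw [this, zero_mul]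

theorem hv_dh (hg : 1 ≤ g) (L0 L1 : ℕ → ZMod p) (α β : ZMod p) (τ : Option (ZMod p))
    (h0 : ev (fun a : Fin (n * (2 * g + 1) + 1) => L0 a) τ = 1)
    (h1 : ev (fun a : Fin (n * (2 * g + 1 - 2) + 1) => L1 a) τ = 1) (x : ZMod p) :
    hv (dh (g := g) (n := n) (m := m) L0 L1 α β) τ x = α * x + β := by
  have key : ∀ j : Fin (g + 1), ev (fun a => dh (g := g) (n := n) (m := m) L0 L1 α β
      (Sum.inl ⟨j, a⟩)) τ = if (j : ℕ) = 0 then β else if (j : ℕ) = 1 then α else 0 := by
    rintro ⟨j, hj⟩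
    rcases j with _ | _ | j
    · have e : (fun a : Fin (n * (2 * g + 1 - 2 * 0) + 1) =>
          dh (g := g) (n := n) (m := m) L0 L1 α β (Sum.inl ⟨(⟨0, hj⟩ : Fin (g + 1)), a⟩)) =
          fun a : Fin (n * (2 * g + 1 - 2 * 0) + 1) => β * L0 (a : ℕ) := by
        funext a
        simp [dh]
      refine (congrArg (fun v => ev v τ) e).trans ?_
      refine (ev_smul β (fun a : Fin (n * (2 * g + 1) + 1) => L0 a) τ).trans ?_
      rw [h0, mul_one, if_pos rfl]
    · have e : (fun a : Fin (n * (2 * g + 1 - 2 * 1) + 1) =>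
          dh (g := g) (n := n) (m := m) L0 L1 α β (Sum.inl ⟨(⟨1, hj⟩ : Fin (g + 1)), a⟩)) =
          fun a : Fin (n * (2 * g + 1 - 2 * 1) + 1) => α * L1 (a : ℕ) := by
        funext a
        simp [dh]
      refine (congrArg (fun v => ev v τ) e).trans ?_
      refine (ev_smul α (fun a : Fin (n * (2 * g + 1 - 2) + 1) => L1 a) τ).trans ?_
      rw [h1, mul_one]
      simp
    · have e : (fun a : Fin (n * (2 * g + 1 - 2 * (j + 1 + 1)) + 1) =>
          dh (g := g) (n := n) (m := m) L0 L1 α β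
            (Sum.inl ⟨(⟨j + 1 + 1, hj⟩ : Fin (g + 1)), a⟩)) = fun _ => 0 := by
        funext a
        simp [dh]
      refine (congrArg (fun v => ev v τ) e).trans ?_
      rw [ev_zero]
      simp
  unfold hv
  simp only [key]
  have h2 : ∀ j : Fin (g + 1), (if (j : ℕ) = 0 then β else if (j : ℕ) = 1 then α else 0) *
      x ^ (j : ℕ) = (if j = ⟨0, by omega⟩ then β else 0) +
        (if j = ⟨1, by omega⟩ then α * x else 0) := by
    rintro ⟨j, hj⟩
    rcases j with _ | _ | j <;> simp
  simp only [h2, Finset.sum_add_distrib, Finset.sum_ite_eq', Finset.mem_univ, if_true]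
  ring

/-- The discriminant of the quadratic equation for `y`. -/
def dis (b : Fin m → Fin (2 * n + 1) → ℤ) (y : Option (ZMod p) × ZMod p)
    (c : Idx g n m → ZMod p) : ZMod p :=
  hv c y.1 y.2 ^ 2 + 4 * (Bv b y.1 y.2 * qv c y.1 y.2)

theorem four_ne (h5 : 5 ≤ p) : (4 : ZMod p) ≠ 0 := by
  have h2 := two_ne (p := p) h5
  intro h
  apply h2
  have e : (2 : ZMod p) * 2 = 0 := by rw [← h]; norm_num
  exact (mul_self_eq_zero (a := (2 : ZMod p))).1 e

theorem dis_dq (hm : m ≤ 2 * g) (b : Fin m → Fin (2 * n + 1) → ℤ) (y : Option (ZMod p) × ZMod p)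
    (c : Idx g n m → ZMod p) (L : ℕ → ZMod p) (t : ZMod p) :
    dis b y (c + t • dq L) = dis b y c +
      t * (4 * Bv b y.1 y.2 * ev (fun a : Fin (2 * n * (2 * g + 1 - m) + 1) => L a) y.1) := by
  unfold dis
  rw [hv_add, qv_add, hv_dq, ql_dq hm]
  ring

/-- The mean value at a point outside the prescribed sections. -/
theorem mean_out (h5 : 5 ≤ p) (hm : m ≤ 2 * g) (b : Fin m → Fin (2 * n + 1) → ℤ)
    (y : Option (ZMod p) × ZMod p) (hy : Bv b y.1 y.2 ≠ 0) :
    EM p (fun c : Idx g n m → ZMod p => ch (dis b y c)) = 0 := by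
  obtain ⟨L, hL⟩ := exists_L1 (D := 2 * n * (2 * g + 1 - m)) y.1
  have h := EM_zero_dir h5 (fun c : Idx g n m → ZMod p => dis b y c) (fun _ => (1 : ℝ)) (dq L)
    (4 * Bv b y.1 y.2) (mul_ne_zero (four_ne h5) hy) (fun c t => by
      rw [dis_dq hm, hL, mul_one]) (fun _ _ => rfl)
  simpa using h

theorem hv_shift (hg : 1 ≤ g) (τ : Option (ZMod p)) (α β : ZMod p) :
    ∃ d : Idx g n m → ZMod p, (∀ x, hv d τ x = α * x + β) ∧ ∀ τ' x, ql d τ' x = 0 := by
  obtain ⟨L0, h0⟩ := exists_L1 (D := n * (2 * g + 1)) τ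
  obtain ⟨L1, h1⟩ := exists_L1 (D := n * (2 * g + 1 - 2)) τ
  exact ⟨dh L0 L1 α β, fun x => hv_dh hg L0 L1 α β τ h0 h1 x, fun τ' x => ql_dh L0 L1 α β τ' x⟩

/-- The mean value at a point of the prescribed sections. -/
theorem mean_in (hg : 1 ≤ g) (b : Fin m → Fin (2 * n + 1) → ℤ)
    (y : Option (ZMod p) × ZMod p) (hy : Bv b y.1 y.2 = 0) :
    |EM p (fun c : Idx g n m → ZMod p => ch (dis b y c)) - 1| ≤ 1 / p := by
  obtain ⟨d, hd, hd'⟩ := hv_shift (n := n) (m := m) hg y.1 (0 : ZMod p) 1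
  have h := EM_of_sq (fun c : Idx g n m → ZMod p => hv c y.1 y.2) d 1 one_ne_zero (fun c t => by
    rw [hv_add, hd]; ring)
  have e : (fun c : Idx g n m → ZMod p => ch (dis b y c)) = fun c => ch (hv c y.1 y.2 ^ 2) := by
    funext c
    unfold dis
    rw [hy]
    simp
  rw [e]
  exact h

theorem pair_diff (h5 : 5 ≤ p) (hn : 1 ≤ n) (hm : m ≤ 2 * g) (b : Fin m → Fin (2 * n + 1) → ℤ)
    (y y' : Option (ZMod p) × ZMod p) (hτ : y.1 ≠ y'.1) (hy : Bv b y.1 y.2 ≠ 0) :
    EM p (fun c : Idx g n m → ZMod p => ch (dis b y c) * ch (dis b y' c)) = 0 := by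
  have hD : 1 ≤ 2 * n * (2 * g + 1 - m) := by
    have h1 : 1 ≤ 2 * g + 1 - m := by omega
    have h2 : 1 ≤ 2 * n := by omega
    calc 1 = 1 * 1 := rfl
      _ ≤ _ := Nat.mul_le_mul h2 h1
  obtain ⟨L, hL, hL'⟩ := exists_L hD hτ
  exact EM_zero_dir h5 (fun c : Idx g n m → ZMod p => dis b y c)
    (fun c => ch (dis b y' c)) (dq L)
    (4 * Bv b y.1 y.2) (mul_ne_zero (four_ne h5) hy) (fun c t => by
      rw [dis_dq hm, hL, mul_one]) (fun c t => by
      rw [dis_dq hm, hL', mul_zero, mul_zero, add_zero])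

theorem pair_same (h5 : 5 ≤ p) (hg : 1 ≤ g) (hm : m ≤ 2 * g)
    (b : Fin m → Fin (2 * n + 1) → ℤ) (τ : Option (ZMod p)) (x x' : ZMod p) (hx : x ≠ x')
    (hy : Bv b τ x ≠ 0) :
    |EM p (fun c : Idx g n m → ZMod p => ch (dis b (τ, x) c) * ch (dis b (τ, x') c))| ≤ 2 / p := by
  classical
  have hp0 : (0 : ℝ) < p := p_pos'
  have hne : x - x' ≠ 0 := sub_ne_zero.2 hx
  obtain ⟨d, hd, hd'⟩ := hv_shift (n := n) (m := m) hg τ (1 / (x - x')) (-x' / (x - x'))
  have hdx : hv d τ x = 1 := by rw [hd]; field_simp; ring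
  have hdx' : hv d τ x' = 0 := by rw [hd]; field_simp; ring
  have h1 := EM_dir d (fun c : Idx g n m → ZMod p => ch (dis b (τ, x) c) * ch (dis b (τ, x') c))
  have h2 : ∀ c : Idx g n m → ZMod p, ∑ t : ZMod p,
      ch (dis b (τ, x) (c + t • d)) * ch (dis b (τ, x') (c + t • d)) =
      (p * (if qv c τ x = 0 then 1 else 0) - 1) * ch (dis b (τ, x') c) := by
    intro c
    have e1 : ∀ t : ZMod p, dis b (τ, x') (c + t • d) = dis b (τ, x') c := by
      intro t
      unfold dis
      simp only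
      rw [hv_add, qv_add, hd', hdx']
      ring
    have e2 : ∀ t : ZMod p, dis b (τ, x) (c + t • d) =
        (hv c τ x + t) ^ 2 - (-(4 * (Bv b τ x * qv c τ x))) := by
      intro t
      unfold dis
      simp only
      rw [hv_add, qv_add, hd', hdx]
      ring
    simp only [e1, e2]
    rw [← Finset.sum_mul]
    congr 1
    have e3 : ∑ t : ZMod p, ch ((hv c τ x + t) ^ 2 - (-(4 * (Bv b τ x * qv c τ x)))) =
        ∑ y : ZMod p, ch (y ^ 2 - (-(4 * (Bv b τ x * qv c τ x)))) :=
      Fintype.sum_equiv (Equiv.addLeft (hv c τ x)) _ _ fun t => rfl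
    rw [e3, sum_quad h5]
    congr 3
    have h4 := four_ne (p := p) h5
    simp [neg_eq_zero, mul_eq_zero, h4, hy]
  simp only [h2] at h1
  have h3 : |EM p (fun c : Idx g n m → ZMod p =>
      (p * (if qv c τ x = 0 then 1 else 0) - 1) * ch (dis b (τ, x') c))| ≤
      EM p (fun c : Idx g n m → ZMod p => p * (if qv c τ x = 0 then (1 : ℝ) else 0) + 1) := by
    apply EM_abs_le
    intro c
    rw [abs_mul]
    calc _ ≤ |(p : ℝ) * (if qv c τ x = 0 then 1 else 0) - 1| * 1 := by
          gcongr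
          exact ch_abs _
      _ ≤ _ := by
          rw [mul_one]
          split_ifs
          · rw [mul_one, abs_le]
            constructor <;> linarith
          · rw [mul_zero, zero_sub, abs_neg, abs_one]
            linarith
  rw [EM_add', EM_mul', EM_const'] at h3
  obtain ⟨L, hL⟩ := exists_L1 (D := 2 * n * (2 * g + 1 - m)) τ
  have h4 := EM_zero_few (fun c : Idx g n m → ZMod p => qv c τ x) (dq L) 1 one_ne_zero
    (fun c t => by rw [qv_add, ql_dq hm, hL])
  rw [← h1, abs_mul, abs_of_pos hp0] at h3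
  have h5' : (p : ℝ) * |EM p (fun c : Idx g n m → ZMod p =>
      ch (dis b (τ, x) c) * ch (dis b (τ, x') c))| ≤ 2 := by
    refine h3.trans ?_
    calc _ ≤ (p : ℝ) * (1 / p) + 1 := by gcongr
      _ = 2 := by field_simp; norm_num
  rw [le_div_iff₀ hp0, mul_comm]
  exact h5'

theorem ch_mul_abs (u v : ZMod p) : |ch u * ch v| ≤ 1 := by
  rw [abs_mul]
  calc _ ≤ (1 : ℝ) * 1 := mul_le_mul (ch_abs _) (ch_abs _) (abs_nonneg _) zero_le_one
    _ = 1 := mul_one 1

open Classical in
/-- The indicator of the prescribed sections. -/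
noncomputable def oneZ (b : Fin m → Fin (2 * n + 1) → ℤ) (y : Option (ZMod p) × ZMod p) : ℝ :=
  if Bv b y.1 y.2 = 0 then 1 else 0

theorem pair_le (h5 : 5 ≤ p) (hg : 1 ≤ g) (hn : 1 ≤ n) (hm : m ≤ 2 * g)
    (b : Fin m → Fin (2 * n + 1) → ℤ) (y y' : Option (ZMod p) × ZMod p) :
    EM p (fun c : Idx g n m → ZMod p => ch (dis b y c) * ch (dis b y' c)) ≤
      oneZ b y * oneZ b y' + (if y = y' then 1 else 0) + (if y.1 = y'.1 then 2 / (p : ℝ) else 0) := by
  have hp0 : (0 : ℝ) < p := p_pos'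
  have h1 : |EM p (fun c : Idx g n m → ZMod p => ch (dis b y c) * ch (dis b y' c))| ≤ 1 := by
    refine (EM_abs_le p _ (fun _ => (1 : ℝ)) fun c => ch_mul_abs _ _).trans ?_
    rw [EM_const']
  have h1' := (abs_le.1 h1).2
  have h0 : 0 ≤ oneZ b y * oneZ b y' := by
    unfold oneZ
    split_ifs <;> norm_num
  by_cases hyy : y = y'
  · rw [if_pos hyy]
    have : 0 ≤ (if y.1 = y'.1 then 2 / (p : ℝ) else 0) := by
      split_ifs
      · positivity
      · exact le_rfl
    linarith
  rw [if_neg hyy, add_zero]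
  have hsym : EM p (fun c : Idx g n m → ZMod p => ch (dis b y c) * ch (dis b y' c)) =
      EM p (fun c : Idx g n m → ZMod p => ch (dis b y' c) * ch (dis b y c)) := by
    congr 1
    funext c
    ring
  by_cases hz : Bv b y.1 y.2 = 0
  · by_cases hz' : Bv b y'.1 y'.2 = 0
    · have : oneZ b y * oneZ b y' = 1 := by
        unfold oneZ
        rw [if_pos hz, if_pos hz', mul_one]
      have h2 : 0 ≤ (if y.1 = y'.1 then 2 / (p : ℝ) else 0) := by
        split_ifs
        · positivity
        · exact le_rfl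
      linarith
    · by_cases hτ : y.1 = y'.1
      · obtain ⟨τ, x⟩ := y
        obtain ⟨τ', x'⟩ := y'
        simp only at hτ hz hz' hsym
        subst hτ
        have hx : x' ≠ x := fun h => hyy (by rw [h])
        rw [if_pos rfl, hsym]
        have := (abs_le.1 (pair_same h5 hg hm b τ x' x hx hz')).2
        linarith
      · rw [hsym, pair_diff h5 hn hm b y' y (Ne.symm hτ) hz', if_neg hτ]
        linarith
  · by_cases hτ : y.1 = y'.1
    · obtain ⟨τ, x⟩ := y
      obtain ⟨τ', x'⟩ := y'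
      simp only at hτ hz
      subst hτ
      have hx : x ≠ x' := fun h => hyy (by rw [h])
      rw [if_pos rfl]
      have := (abs_le.1 (pair_same h5 hg hm b τ x x' hx hz)).2
      linarith
    · rw [pair_diff h5 hn hm b y y' hτ hz, if_neg hτ]
      linarith

/-! ### The number of the points of the prescribed sections -/

/-- The number of the prescribed sections through a point. -/
noncomputable def kk (b : Fin m → Fin (2 * n + 1) → ℤ) (y : Option (ZMod p) × ZMod p) : ℝ :=
  ∑ i, if y.2 = ev (fun a => (b i a : ZMod p)) y.1 then (1 : ℝ) else 0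

/-- The number of the ordered pairs of different prescribed sections through a point. -/
noncomputable def kk2 (b : Fin m → Fin (2 * n + 1) → ℤ) (y : Option (ZMod p) × ZMod p) : ℝ :=
  ∑ i, ∑ j, if i ≠ j ∧ y.2 = ev (fun a => (b i a : ZMod p)) y.1 ∧
    y.2 = ev (fun a => (b j a : ZMod p)) y.1 then (1 : ℝ) else 0

theorem oneZ_le (b : Fin m → Fin (2 * n + 1) → ℤ) (y : Option (ZMod p) × ZMod p) :
    oneZ b y ≤ kk b y := by
  unfold oneZ kk
  split_ifs with h
  · unfold Bv at h
    rw [Finset.prod_eq_zero_iff] at h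
    obtain ⟨i, _, hi⟩ := h
    have h1 : (1 : ℝ) = if y.2 = ev (fun a => (b i a : ZMod p)) y.1 then (1 : ℝ) else 0 := by
      rw [if_pos (sub_eq_zero.1 hi)]
    refine (le_of_eq h1).trans ?_
    exact Finset.single_le_sum (f := fun i => if y.2 = ev (fun a => (b i a : ZMod p)) y.1
      then (1 : ℝ) else 0) (fun i _ => by split_ifs <;> norm_num) (Finset.mem_univ i)
  · exact Finset.sum_nonneg fun i _ => by split_ifs <;> norm_num

theorem le_oneZ (b : Fin m → Fin (2 * n + 1) → ℤ) (y : Option (ZMod p) × ZMod p) :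
    kk b y - kk2 b y ≤ oneZ b y := by
  classical
  have h2 : kk2 b y = kk b y ^ 2 - kk b y := by
    unfold kk2 kk
    rw [pow_two, Finset.sum_mul_sum, ← Finset.sum_sub_distrib]
    refine Finset.sum_congr rfl fun i _ => ?_
    rw [← Finset.add_sum_erase _ _ (Finset.mem_univ i),
      ← Finset.add_sum_erase _ (fun j => (if y.2 = ev (fun a => (b i a : ZMod p)) y.1 then (1 : ℝ)
        else 0) * (if y.2 = ev (fun a => (b j a : ZMod p)) y.1 then (1 : ℝ) else 0))
        (Finset.mem_univ i)]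
    have e1 : (if i ≠ i ∧ y.2 = ev (fun a => (b i a : ZMod p)) y.1 ∧
        y.2 = ev (fun a => (b i a : ZMod p)) y.1 then (1 : ℝ) else 0) = 0 := by simp
    have e2 : ∀ j ∈ univ.erase i, (if i ≠ j ∧ y.2 = ev (fun a => (b i a : ZMod p)) y.1 ∧
        y.2 = ev (fun a => (b j a : ZMod p)) y.1 then (1 : ℝ) else 0) =
        (if y.2 = ev (fun a => (b i a : ZMod p)) y.1 then (1 : ℝ) else 0) *
          (if y.2 = ev (fun a => (b j a : ZMod p)) y.1 then (1 : ℝ) else 0) := by
      intro j hj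
      have hne : i ≠ j := (Finset.ne_of_mem_erase hj).symm
      by_cases h1 : y.2 = ev (fun a => (b i a : ZMod p)) y.1 <;>
        by_cases h3 : y.2 = ev (fun a => (b j a : ZMod p)) y.1 <;> simp [hne, h1, h3]
    rw [e1, Finset.sum_congr rfl e2]
    split_ifs <;> ring
  rw [h2]
  unfold oneZ
  split_ifs with h
  · nlinarith [sq_nonneg (kk b y - 1)]
  · have h0 : kk b y = 0 := by
      unfold kk
      refine Finset.sum_eq_zero fun i _ => ?_
      rw [if_neg]
      intro hi
      apply h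
      unfold Bv
      exact Finset.prod_eq_zero (Finset.mem_univ i) (sub_eq_zero.2 hi)
    rw [h0]
    norm_num

theorem card_P1 : (Fintype.card (Option (ZMod p)) : ℝ) = p + 1 := by
  rw [Fintype.card_option, ZMod.card]
  push_cast
  ring

theorem sum_kk (b : Fin m → Fin (2 * n + 1) → ℤ) :
    ∑ y : Option (ZMod p) × ZMod p, kk b y = m * (p + 1) := by
  unfold kk
  rw [Finset.sum_comm]
  have h1 : ∀ i : Fin m, ∑ y : Option (ZMod p) × ZMod p,
      (if y.2 = ev (fun a => (b i a : ZMod p)) y.1 then (1 : ℝ) else 0) = p + 1 := by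
    intro i
    rw [Fintype.sum_prod_type]
    simp only [Finset.sum_ite_eq', Finset.mem_univ, if_true]
    rw [Finset.sum_const, Finset.card_univ, nsmul_eq_mul, mul_one, card_P1]
  rw [Finset.sum_congr rfl fun i _ => h1 i, Finset.sum_const, Finset.card_univ, Fintype.card_fin,
    nsmul_eq_mul]

/-- Two different forms of degree `D` agree at `D + 1` points at most. -/
theorem agree {D : ℕ} (v w : Fin (D + 1) → ZMod p) (h : v ≠ w) :
    ((univ.filter fun τ : Option (ZMod p) => ev v τ = ev w τ).card : ℝ) ≤ D + 1 := by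
  classical
  set P : Polynomial (ZMod p) := ∑ a : Fin (D + 1), Polynomial.C (v a - w a) * Polynomial.X ^ (a : ℕ)
    with hP
  have hcoef : ∀ a : Fin (D + 1), P.coeff (a : ℕ) = v a - w a := by
    intro a
    rw [hP, Polynomial.finsetSum_coeff]
    rw [Finset.sum_eq_single a]
    · rw [Polynomial.coeff_C_mul_X_pow, if_pos rfl]
    · intro b _ hb
      rw [Polynomial.coeff_C_mul_X_pow, if_neg (fun h => hb (Fin.ext h.symm))]
    · simp
  have hP0 : P ≠ 0 := by
    intro h0
    apply h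
    funext a
    have := hcoef a
    rw [h0, Polynomial.coeff_zero] at this
    exact (sub_eq_zero.1 this.symm)
  have hdeg : P.natDegree ≤ D := by
    rw [hP]
    refine Polynomial.natDegree_sum_le_of_forall_le _ _ fun a _ => ?_
    refine (Polynomial.natDegree_C_mul_X_pow_le _ _).trans ?_
    exact Nat.lt_succ_iff.1 a.2
  have hsub : (univ.filter fun τ : Option (ZMod p) => ev v τ = ev w τ) ⊆
      insert none (P.roots.toFinset.image some) := by
    intro τ hτ
    rw [Finset.mem_filter] at hτ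
    rcases τ with _ | t
    · exact Finset.mem_insert_self _ _
    · rw [Finset.mem_insert]
      right
      rw [Finset.mem_image]
      refine ⟨t, ?_, rfl⟩
      rw [Multiset.mem_toFinset, Polynomial.mem_roots hP0, Polynomial.IsRoot.def, hP,
        Polynomial.eval_finsetSum]
      have h1 := hτ.2
      simp only [ev] at h1
      simp only [Polynomial.eval_mul, Polynomial.eval_C, Polynomial.eval_pow, Polynomial.eval_X,
        sub_mul, Finset.sum_sub_distrib, h1, sub_self]
  have h1 := (Finset.card_le_card hsub).trans ((Finset.card_insert_le _ _).trans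
    (Nat.add_le_add_right Finset.card_image_le 1))
  have h2 := (Multiset.toFinset_card_le P.roots).trans (P.card_roots'.trans hdeg)
  have h3 : (univ.filter fun τ : Option (ZMod p) => ev v τ = ev w τ).card ≤ D + 1 := by omega
  exact_mod_cast h3

theorem sum_kk2 (b : Fin m → Fin (2 * n + 1) → ℤ)
    (hb : ∀ i j, i ≠ j → (fun a => (b i a : ZMod p)) ≠ fun a => (b j a : ZMod p)) :
    ∑ y : Option (ZMod p) × ZMod p, kk2 b y ≤ m ^ 2 * (2 * n + 1) := by
  unfold kk2
  rw [Finset.sum_comm]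
  have h1 : ∀ i j : Fin m, ∑ y : Option (ZMod p) × ZMod p,
      (if i ≠ j ∧ y.2 = ev (fun a => (b i a : ZMod p)) y.1 ∧
        y.2 = ev (fun a => (b j a : ZMod p)) y.1 then (1 : ℝ) else 0) ≤ 2 * n + 1 := by
    intro i j
    by_cases hij : i = j
    · simp [hij]
      positivity
    · have h2 := agree _ _ (hb i j hij)
      push_cast at h2
      refine le_trans (le_of_eq ?_) h2
      rw [Fintype.sum_prod_type, Finset.card_filter]
      push_cast
      refine Finset.sum_congr rfl fun τ _ => ?_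
      split_ifs with h
      · rw [Finset.sum_eq_single (ev (fun a => (b i a : ZMod p)) τ)]
        · rw [if_pos ⟨hij, rfl, h⟩]
        · intro x _ hx
          rw [if_neg fun h => hx h.2.1]
        · simp
      · refine Finset.sum_eq_zero fun x _ => ?_
        rw [if_neg]
        rintro ⟨-, h3, h4⟩
        exact h (h3.symm.trans h4)
  have h3 : ∀ i : Fin m, ∑ y : Option (ZMod p) × ZMod p, ∑ j,
      (if i ≠ j ∧ y.2 = ev (fun a => (b i a : ZMod p)) y.1 ∧
        y.2 = ev (fun a => (b j a : ZMod p)) y.1 then (1 : ℝ) else 0) ≤ m * (2 * n + 1) := by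
    intro i
    rw [Finset.sum_comm]
    refine (Finset.sum_le_sum fun j _ => h1 i j).trans (le_of_eq ?_)
    rw [Finset.sum_const, Finset.card_univ, Fintype.card_fin, nsmul_eq_mul]
  refine (Finset.sum_le_sum fun i _ => h3 i).trans (le_of_eq ?_)
  rw [Finset.sum_const, Finset.card_univ, Fintype.card_fin, nsmul_eq_mul]
  ring

/-- The deviation of the trace of the Frobenius from `(2 + m) p`. -/
noncomputable def TT (b : Fin m → Fin (2 * n + 1) → ℤ) (p : ℕ) [Fact p.Prime]
    (c : Idx g n m → ZMod p) : ℝ :=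
  ∑ y : Option (ZMod p) × ZMod p, ch (dis b y c) - m * p

theorem oneZ_nonneg (b : Fin m → Fin (2 * n + 1) → ℤ) (y : Option (ZMod p) × ZMod p) :
    0 ≤ oneZ b y := by
  unfold oneZ
  split_ifs <;> norm_num

theorem sum_oneZ (b : Fin m → Fin (2 * n + 1) → ℤ)
    (hb : ∀ i j, i ≠ j → (fun a => (b i a : ZMod p)) ≠ fun a => (b j a : ZMod p)) :
    m * (p + 1) - (m : ℝ) ^ 2 * (2 * n + 1) ≤ ∑ y : Option (ZMod p) × ZMod p, oneZ b y ∧
      ∑ y : Option (ZMod p) × ZMod p, oneZ b y ≤ m * (p + 1) := by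
  constructor
  · have h1 := Finset.sum_le_sum (s := (Finset.univ : Finset (Option (ZMod p) × ZMod p)))
      fun y _ => le_oneZ b y
    rw [Finset.sum_sub_distrib, sum_kk] at h1
    have h2 := sum_kk2 b hb
    linarith
  · have h1 := Finset.sum_le_sum (s := (Finset.univ : Finset (Option (ZMod p) × ZMod p)))
      fun y _ => oneZ_le b y
    rwa [sum_kk] at h1

theorem EM_fsum {J ι : Type} [Fintype ι] [DecidableEq ι] (s : Finset J)
    (f : J → (ι → ZMod p) → ℝ) :
    EM p (fun c => ∑ j ∈ s, f j c) = ∑ j ∈ s, EM p (f j) := by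
  unfold EM
  rw [Finset.sum_comm, Finset.sum_div]

/-- **The mean value.** -/
theorem mean_TT (h5 : 5 ≤ p) (hg : 1 ≤ g) (hm : m ≤ 2 * g) (b : Fin m → Fin (2 * n + 1) → ℤ)
    (hb : ∀ i j, i ≠ j → (fun a => (b i a : ZMod p)) ≠ fun a => (b j a : ZMod p)) :
    |EM p (TT (g := g) b p)| ≤ 3 * m + (m : ℝ) ^ 2 * (2 * n + 1) := by
  have hp0 : (0 : ℝ) < p := p_pos'
  have hp1 : (1 : ℝ) ≤ p := by exact_mod_cast hp.out.one_lt.le
  have h1 : EM p (TT (g := g) b p) =
      (∑ y : Option (ZMod p) × ZMod p, EM p (fun c : Idx g n m → ZMod p => ch (dis b y c))) -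
        m * p := by
    unfold TT
    rw [EM_sub', EM_const', EM_fsum]
  have h2 : ∀ y : Option (ZMod p) × ZMod p,
      |EM p (fun c : Idx g n m → ZMod p => ch (dis b y c)) - oneZ b y| ≤ oneZ b y * (1 / p) := by
    intro y
    unfold oneZ
    split_ifs with h
    · rw [one_mul]
      exact mean_in hg b y h
    · rw [mean_out h5 hm b y h]
      simp
  have h3 : |(∑ y : Option (ZMod p) × ZMod p,
      EM p (fun c : Idx g n m → ZMod p => ch (dis b y c))) -
      ∑ y : Option (ZMod p) × ZMod p, oneZ b y| ≤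
      (∑ y : Option (ZMod p) × ZMod p, oneZ b y) * (1 / p) := by
    rw [← Finset.sum_sub_distrib, Finset.sum_mul]
    exact (Finset.abs_sum_le_sum_abs _ _).trans (Finset.sum_le_sum fun y _ => h2 y)
  obtain ⟨h4, h5'⟩ := sum_oneZ (p := p) b hb
  have h6 : (∑ y : Option (ZMod p) × ZMod p, oneZ b y) * (1 / p) ≤ 2 * m := by
    calc _ ≤ (m * (p + 1)) * (1 / (p : ℝ)) := by gcongr
      _ ≤ (m * (p + p)) * (1 / (p : ℝ)) := by gcongr
      _ = 2 * m := by field_simp; ring
  have hm0 : (0 : ℝ) ≤ m := by positivity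
  have hk0 : (0 : ℝ) ≤ (m : ℝ) ^ 2 * (2 * n + 1) := by positivity
  rw [h1, abs_le]
  have h7 := abs_le.1 h3
  constructor <;> nlinarith [h7.1, h7.2]

/-- **The second moment.** -/
theorem sq_TT (h5 : 5 ≤ p) (hg : 1 ≤ g) (hn : 1 ≤ n) (hm : m ≤ 2 * g)
    (b : Fin m → Fin (2 * n + 1) → ℤ)
    (hb : ∀ i j, i ≠ j → (fun a => (b i a : ZMod p)) ≠ fun a => (b j a : ZMod p)) :
    EM p (fun c => TT (g := g) b p c ^ 2) ≤ (10 * (m : ℝ) ^ 2 + 12) * (p : ℝ) ^ 2 := by
  have hp0 : (0 : ℝ) < p := p_pos'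
  have hp1 : (1 : ℝ) ≤ p := by exact_mod_cast hp.out.one_lt.le
  obtain ⟨h4, h5'⟩ := sum_oneZ (p := p) b hb
  have h1 : EM p (fun c : Idx g n m → ZMod p =>
      (∑ y : Option (ZMod p) × ZMod p, ch (dis b y c)) ^ 2) ≤ (4 * (m : ℝ) ^ 2 + 6) * p ^ 2 := by
    have e1 : (fun c : Idx g n m → ZMod p =>
        (∑ y : Option (ZMod p) × ZMod p, ch (dis b y c)) ^ 2) = fun c =>
        ∑ y : Option (ZMod p) × ZMod p, ∑ y' : Option (ZMod p) × ZMod p,
          ch (dis b y c) * ch (dis b y' c) := by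
      funext c
      rw [pow_two, Finset.sum_mul_sum]
    rw [e1, EM_fsum]
    have e2 : ∀ y : Option (ZMod p) × ZMod p, EM p (fun c : Idx g n m → ZMod p =>
        ∑ y' : Option (ZMod p) × ZMod p, ch (dis b y c) * ch (dis b y' c)) =
        ∑ y' : Option (ZMod p) × ZMod p,
          EM p (fun c : Idx g n m → ZMod p => ch (dis b y c) * ch (dis b y' c)) := by
      intro y
      rw [EM_fsum]
    rw [Finset.sum_congr rfl fun y _ => e2 y]
    refine (Finset.sum_le_sum fun y _ => Finset.sum_le_sum fun y' _ =>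
      pair_le h5 hg hn hm b y y').trans ?_
    simp only [Finset.sum_add_distrib]
    have s1 : ∑ y : Option (ZMod p) × ZMod p, ∑ y' : Option (ZMod p) × ZMod p,
        oneZ b y * oneZ b y' = (∑ y : Option (ZMod p) × ZMod p, oneZ b y) ^ 2 := by
      rw [pow_two, Finset.sum_mul_sum]
    have s2 : ∑ y : Option (ZMod p) × ZMod p, ∑ y' : Option (ZMod p) × ZMod p,
        (if y = y' then (1 : ℝ) else 0) = (p + 1) * p := by
      simp only [Finset.sum_ite_eq, Finset.mem_univ, if_true]
      rw [Finset.sum_const, Finset.card_univ, Fintype.card_prod, nsmul_eq_mul, mul_one]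
      push_cast
      rw [card_P1, ZMod.card]
    have s3 : ∑ y : Option (ZMod p) × ZMod p, ∑ y' : Option (ZMod p) × ZMod p,
        (if y.1 = y'.1 then 2 / (p : ℝ) else 0) = (p + 1) * (p * (p * (2 / p))) := by
      have : ∀ y : Option (ZMod p) × ZMod p, ∑ y' : Option (ZMod p) × ZMod p,
          (if y.1 = y'.1 then 2 / (p : ℝ) else 0) = p * (2 / p) := by
        intro y
        rw [Fintype.sum_prod_type, Finset.sum_comm]
        simp only [Finset.sum_ite_eq, Finset.mem_univ, if_true]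
        rw [Finset.sum_const, Finset.card_univ, ZMod.card, nsmul_eq_mul]
      rw [Finset.sum_congr rfl fun y _ => this y, Finset.sum_const, Finset.card_univ,
        Fintype.card_prod, nsmul_eq_mul]
      push_cast
      rw [card_P1, ZMod.card]
      ring
    rw [s1, s2, s3]
    have t0 : 0 ≤ ∑ y : Option (ZMod p) × ZMod p, oneZ b y :=
      Finset.sum_nonneg fun y _ => oneZ_nonneg b y
    have t1 : (∑ y : Option (ZMod p) × ZMod p, oneZ b y) ^ 2 ≤ (m * (p + p)) ^ 2 := by
      have : ∑ y : Option (ZMod p) × ZMod p, oneZ b y ≤ m * (p + p) := by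
        refine h5'.trans ?_
        gcongr
      gcongr
    have t2 : ((p : ℝ) + 1) * (p * (p * (2 / p))) = 2 * p * (p + 1) := by
      field_simp
    rw [t2]
    nlinarith
  have h2 : EM p (fun c : Idx g n m → ZMod p => TT b p c ^ 2) ≤
      EM p (fun c : Idx g n m → ZMod p =>
        2 * (∑ y : Option (ZMod p) × ZMod p, ch (dis b y c)) ^ 2 + 2 * (m * (p : ℝ)) ^ 2) := by
    apply EM_mono'
    intro c
    unfold TT
    nlinarith [sq_nonneg ((∑ y : Option (ZMod p) × ZMod p, ch (dis b y c)) + m * (p : ℝ))]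
  refine h2.trans ?_
  rw [EM_add', EM_mul', EM_const']
  nlinarith

end Pool.Agent.K7.H53.EL
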